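import Pool.Agent.MWFE.StmtsA

/-! Squad MWFE, row FIL: a letter `v` between letters `z`. -/

set_option autoImplicit false

namespace Pool.Agent.MWFE.H35

open Pool.Agent.Helper14_MV Pool.Agent.Helper2_MV Pool.Agent.MVD Pool.Agent.MWFE

/-- both exponents raised by `n` -/
theorem up2 {n : ℕ} {β : FIC} (H : Hz n β) (p q : List ℕ) (z v i j : ℕ) (hv : v ≠ z)
    (hi : 1 ≤ i) (hj : 1 ≤ j) (hc : 2 ≤ (p ++ v :: q).count v) :
    RR β (p ++ (List.replicate i z ++ v :: (List.replicate j z ++ q)))
      (p ++ (List.replicate (i + n) z ++ v :: (List.replicate (j + n) z ++ q))) := by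
  obtain ⟨i0, rfl⟩ : ∃ i0, i = i0 + 1 := ⟨i - 1, by omega⟩
  obtain ⟨j0, rfl⟩ : ∃ j0, j = j0 + 1 := ⟨j - 1, by omega⟩
  have hcnt : ∀ a b : ℕ, (p ++ (List.replicate a z ++ v :: (List.replicate b z ++ q))).count v =
      (p ++ v :: q).count v := by
    intro a b
    have hz : ∀ c : ℕ, (List.replicate c z).count v = 0 := by
      intro c
      rw [List.count_eq_zero]
      intro h
      exact hv (List.eq_of_mem_replicate h)
    simp only [List.count_append, List.count_cons, hz, zero_add]
  have e1 : ∀ a : ℕ, List.replicate (a + 1) z = List.replicate a z ++ [z] := fun a =>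
    List.replicate_succ'
  have e2 : ∀ a : ℕ, List.replicate (a + 1) z = z :: List.replicate a z := fun a =>
    List.replicate_succ
  -- insertion before `v`
  have s1 := H.it (p ++ List.replicate i0 z) [] [v] (List.replicate j0 z ++ q) z (by
    intro a ha
    have ha' : a = v := by simpa using ha
    subst ha'
    have := hcnt (i0 + 1) (j0 + 1)
    rw [e1 i0, e2 j0] at this
    simp only [List.append_assoc, List.cons_append, List.nil_append] at this ⊢
    rw [this]
    exact hc)
  -- insertion behind `v`
  have s2 := H.it (p ++ List.replicate (i0 + n) z) [v] [] (List.replicate j0 z ++ q) z (by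
    intro a ha
    have ha' : a = v := by simpa using ha
    subst ha'
    have := hcnt (i0 + n + 1) (j0 + 1)
    rw [e1 (i0 + n), e2 j0] at this
    simp only [List.append_assoc, List.cons_append, List.nil_append] at this ⊢
    rw [this]
    exact hc)
  have f1 : p ++ (List.replicate (i0 + 1) z ++ v :: (List.replicate (j0 + 1) z ++ q)) =
      (p ++ List.replicate i0 z) ++ z :: ([] ++ ([v] ++ z :: (List.replicate j0 z ++ q))) := by
    rw [e1 i0, e2 j0]
    simp
  have f2 : (p ++ List.replicate i0 z) ++ z :: ([] ++ (List.replicate n z ++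
      ([v] ++ z :: (List.replicate j0 z ++ q)))) =
      (p ++ List.replicate (i0 + n) z) ++ z :: ([v] ++ ([] ++ z :: (List.replicate j0 z ++ q))) := by
    have g : List.replicate (i0 + n) z ++ [z] = List.replicate i0 z ++ z :: List.replicate n z := by
      rw [← e1, ← e2, List.replicate_append_replicate]
      congr 1
    have g2 := congrArg (fun l => p ++ (l ++ v :: z :: (List.replicate j0 z ++ q))) g
    simpa [List.append_assoc] using g2.symm
  have f3 : (p ++ List.replicate (i0 + n) z) ++ z :: ([v] ++ (List.replicate n z ++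
      ([] ++ z :: (List.replicate j0 z ++ q)))) =
      p ++ (List.replicate (i0 + 1 + n) z ++ v :: (List.replicate (j0 + 1 + n) z ++ q)) := by
    have g1 : List.replicate (i0 + 1 + n) z = List.replicate (i0 + n) z ++ [z] := by
      rw [← e1]
      congr 1
      omega
    have g3 : List.replicate (j0 + 1 + n) z = List.replicate n z ++ z :: List.replicate j0 z := by
      rw [← e2, List.replicate_append_replicate]
      congr 1
      omega
    rw [g1, g3]
    simp [List.append_assoc]
  rw [f1, ← f3]
  rw [f2] at s1
  exact β.trans s1 s2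

/-- FIL -/
theorem fil (h1 : PwlStmt) : FilStmt := by
  intro n β H p q z v i j i' j' hv hii hjj hi hj hi' hj' hc
  have hn := H.n2
  have a1 := up2 H p q z v i j hv hi hj hc
  have a2 := up2 H p q z v i' j' hv hi' hj' hc
  have b1 := h1 n β H p (v :: (List.replicate (j + n) z ++ q)) z (i + n) (i' + n)
    (hii.add_right n) (by omega) (by omega)
  have b2 := h1 n β H (p ++ (List.replicate (i' + n) z ++ [v])) q z (j + n) (j' + n)
    (hjj.add_right n) (by omega) (by omega)
  have b2' : RR β (p ++ (List.replicate (i' + n) z ++ v :: (List.replicate (j + n) z ++ q)))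
      (p ++ (List.replicate (i' + n) z ++ v :: (List.replicate (j' + n) z ++ q))) := by
    simpa [List.append_assoc] using b2
  exact β.trans a1 (β.trans b1 (β.trans b2' (RR.symm a2)))

end Pool.Agent.MWFE.H35
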